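import Pool.Agent.H37.HH.Targets4

/-!
# The difference of two smooth sums
-/

set_option autoImplicit false

open NumberField Complex Filter Topology MeasureTheory
open scoped ContDiff nonZeroDivisors

namespace Pool.Agent.H85.HH

open Pool.Agent.H33.HH Pool.Agent.H28.RC Pool.Agent.H37.CV

noncomputable section

/-- the modulus of the weight -/
def dG (G : ℝ → ℝ) (u : ℝ) : ℝ := G (7 * u / 2) - G (7 * u)

theorem dG_low {G : ℝ → ℝ} (hG : Pool.Agent.H33.HH.IsG G) (u : ℝ) (hu : u ≤ 1 / 7) : dG G u = 0 := by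
  unfold dG
  rw [hG.low _ (by linarith), hG.low _ (by linarith), sub_self]

theorem dG_high {G : ℝ → ℝ} (hG : Pool.Agent.H33.HH.IsG G) (u : ℝ) (hu : 1 < u) : dG G u = 0 := by
  unfold dG
  rw [hG.high _ (by linarith), hG.high _ (by linarith), sub_self]

/-- a radial weight times the difference -/
def wt (T : ℝ → ℝ) (G : ℝ → ℝ) (s1 s2 u : ℝ) : ℝ :=
  Real.exp (-(s1 * Real.log u)) * T (s2 * Real.log u) * dG G u

theorem wt_smooth {G T : ℝ → ℝ} (hG : Pool.Agent.H33.HH.IsG G) (hT : ContDiff ℝ ∞ T) :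
    ContDiff ℝ ∞ (fun q : (ℝ × ℝ) × ℂ => wt T G q.1.1 q.1.2 (‖q.2‖ ^ 2)) := by
  rw [contDiff_iff_contDiffAt]
  rintro ⟨⟨s1, s2⟩, z⟩
  by_cases hz : z = 0
  · have hev : (fun q : (ℝ × ℝ) × ℂ => wt T G q.1.1 q.1.2 (‖q.2‖ ^ 2)) =ᶠ[𝓝 ((s1, s2), z)]
        fun _ => (0 : ℝ) := by
      have hc : Continuous (fun q : (ℝ × ℝ) × ℂ => ‖q.2‖ ^ 2) := by fun_prop
      have h1 : ∀ᶠ q : (ℝ × ℝ) × ℂ in 𝓝 ((s1, s2), z), ‖q.2‖ ^ 2 < 1 / 7 := by
        apply hc.continuousAt.eventually_lt continuousAt_const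
        simp [hz]
      filter_upwards [h1] with q hq
      simp only [wt, dG_low hG _ hq.le, mul_zero]
    exact contDiffAt_const.congr_of_eventuallyEq hev
  · have hn : ContDiffAt ℝ ∞ (fun q : (ℝ × ℝ) × ℂ => ‖q.2‖ ^ 2) ((s1, s2), z) :=
      (contDiff_snd.norm_sq ℝ).contDiffAt
    have hne : ‖z‖ ^ 2 ≠ 0 := by positivity
    have hl : ContDiffAt ℝ ∞ (fun q : (ℝ × ℝ) × ℂ => Real.log (‖q.2‖ ^ 2)) ((s1, s2), z) :=
      hn.log hne
    have h1 : ContDiffAt ℝ ∞ (fun q : (ℝ × ℝ) × ℂ => q.1.1) ((s1, s2), z) :=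
      (contDiff_fst.comp contDiff_fst).contDiffAt
    have h2 : ContDiffAt ℝ ∞ (fun q : (ℝ × ℝ) × ℂ => q.1.2) ((s1, s2), z) :=
      (contDiff_snd.comp contDiff_fst).contDiffAt
    have hd : ContDiff ℝ ∞ (dG G) := by
      unfold dG
      exact (hG.smooth.comp (by fun_prop)).sub (hG.smooth.comp (by fun_prop))
    unfold wt
    refine (((h1.mul hl).neg.exp).mul (hT.contDiffAt.comp _ (h2.mul hl))).mul
      (hd.contDiffAt.comp _ hn)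

theorem wt_high {G T : ℝ → ℝ} (hG : Pool.Agent.H33.HH.IsG G) (s1 s2 u : ℝ) (hu : 1 < u) :
    wt T G s1 s2 u = 0 := by
  simp only [wt, dG_high hG _ hu, mul_zero]

/-- the complex power by the two weights -/
theorem cpow_wt {G : ℝ → ℝ} {Y : ℝ} (hY : 0 < Y) {n : ℝ} (hn : 0 < n) (s : ℂ) :
    (dG G (n / Y) : ℂ) * (n : ℂ) ^ (-s) = (Y : ℂ) ^ (-s) *
      ((wt Real.cos G s.re s.im (n / Y) : ℂ) - (wt Real.sin G s.re s.im (n / Y) : ℂ) * I) := by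
  have hu : 0 < n / Y := by positivity
  have h1 : (n : ℂ) = ((n / Y : ℝ) : ℂ) * (Y : ℂ) := by
    rw [← ofReal_mul]
    congr 1
    field_simp
  have h2 : (((n / Y : ℝ) : ℂ)) ^ (-s) = ((Real.exp (-(s.re * Real.log (n / Y)))) : ℂ) *
      ((Real.cos (s.im * Real.log (n / Y)) : ℂ) - (Real.sin (s.im * Real.log (n / Y)) : ℂ) * I) := by
    rw [cpow_def_of_ne_zero (by exact_mod_cast hu.ne'), ← ofReal_log hu.le]
    have h3 : ((Real.log (n / Y) : ℝ) : ℂ) * -s =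
        ((-(s.re * Real.log (n / Y)) : ℝ) : ℂ) + ((-(s.im * Real.log (n / Y)) : ℝ) : ℂ) * I := by
      apply Complex.ext <;> simp <;> ring
    rw [h3, Complex.exp_add, Complex.exp_mul_I, ← ofReal_exp, ← ofReal_cos, ← ofReal_sin,
      Real.cos_neg, Real.sin_neg]
    push_cast
    ring
  conv_lhs => rw [h1, mul_cpow_ofReal_nonneg hu.le hY.le, h2]
  simp only [wt]
  push_cast
  ring

variable {K : Type} [Field K] [NumberField K]

theorem fin_le (b : ℝ) : {m : NI K | nm m.1 ≤ b}.Finite := by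
  have h : {I : Ideal (𝓞 K) | Ideal.absNorm I ≤ ⌊b⌋₊}.Finite :=
    Ideal.finite_setOfPred_absNorm_le ⌊b⌋₊
  refine (h.preimage (f := fun m : NI K => m.1) Subtype.val_injective.injOn).subset ?_
  intro m hm
  simp only [Set.mem_preimage, Set.mem_ofPred_eq] at hm ⊢
  exact Nat.le_floor hm

theorem nm_pos (m : NI K) : 0 < nm m.1 := by
  have h : Ideal.absNorm m.1 ≠ 0 := by
    rw [Ne, Ideal.absNorm_eq_zero_iff]
    exact m.2
  unfold nm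
  exact_mod_cast Nat.pos_of_ne_zero h

theorem SG_sum {G : ℝ → ℝ} (hG : Pool.Agent.H33.HH.IsG G) {X : ℝ} (hX : 0 < X) (s : ℂ)
    (ψ : Ideal (𝓞 K) → ℂ) :
    Summable (fun m : NI K => (G (nm m.1 / X) : ℂ) * (nm m.1 : ℂ) ^ (-s) * ψ m.1) := by
  apply summable_of_hasFiniteSupport
  refine (fin_le (K := K) (3 * X)).subset ?_
  intro m hm
  simp only [Set.mem_ofPred_eq]
  by_contra hc
  push Not at hc
  apply hm
  have h3 : (3 : ℝ) ≤ nm m.1 / X := by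
    rw [le_div_iff₀ hX]
    exact hc.le
  simp [hG.high _ h3]

theorem wt_sum {G T : ℝ → ℝ} (hG : Pool.Agent.H33.HH.IsG G) {Y : ℝ} (hY : 0 < Y) (s1 s2 : ℝ)
    (ψ : Ideal (𝓞 K) → ℂ) :
    Summable (fun m : NI K => ((wt T G s1 s2 (nm m.1 / Y) : ℝ) : ℂ) * ψ m.1) := by
  apply summable_of_hasFiniteSupport
  refine (fin_le (K := K) Y).subset ?_
  intro m hm
  simp only [Set.mem_ofPred_eq]
  by_contra hc
  push Not at hc
  apply hm
  have h3 : (1 : ℝ) < nm m.1 / Y := by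
    rw [lt_div_iff₀ hY]
    linarith
  simp [wt_high hG _ _ _ h3]

theorem SG_diff {G : ℝ → ℝ} (hG : Pool.Agent.H33.HH.IsG G) {X : ℝ} (hX : 0 < X) (s : ℂ)
    (ψ : Ideal (𝓞 K) → ℂ) :
    SG G (2 * X) s ψ - SG G X s ψ = ((7 * X : ℝ) : ℂ) ^ (-s) *
      ((∑' m : NI K, ((wt Real.cos G s.re s.im (nm m.1 / (7 * X)) : ℝ) : ℂ) * ψ m.1) -
        (∑' m : NI K, ((wt Real.sin G s.re s.im (nm m.1 / (7 * X)) : ℝ) : ℂ) * ψ m.1) * I) := by
  have hY : (0 : ℝ) < 7 * X := by positivity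
  unfold SG
  rw [← (SG_sum hG (by positivity : (0 : ℝ) < 2 * X) s ψ).tsum_sub (SG_sum hG hX s ψ),
    ← tsum_mul_right, ← (wt_sum hG hY s.re s.im ψ).tsum_sub
      ((wt_sum hG hY s.re s.im ψ).mul_right I), ← tsum_mul_left]
  refine tsum_congr fun m => ?_
  have h1 := cpow_wt (G := G) hY (nm_pos m) s
  have h2 : dG G (nm m.1 / (7 * X)) = G (nm m.1 / (2 * X)) - G (nm m.1 / X) := by
    unfold dG
    congr 2 <;> field_simp
  rw [h2] at h1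
  push_cast at h1 ⊢
  linear_combination ψ m.1 * h1

theorem van {G : ℝ → ℝ} (hG : Pool.Agent.H33.HH.IsG G) (T : ℝ → ℝ) (S : Set (ℝ × ℝ)) :
    ∀ p ∈ S, ∀ z : ℂ, 1 < ‖z‖ →
      (fun q : (ℝ × ℝ) × ℂ => wt T G q.1.1 q.1.2 (‖q.2‖ ^ 2)) (p, z) = 0 := by
  intro p _ z hz
  have h : 1 < ‖z‖ ^ 2 := by nlinarith
  exact wt_high hG _ _ _ h

theorem wt_bound (hCPM : T_CPM) {G T : ℝ → ℝ} (hG : Pool.Agent.H33.HH.IsG G)
    (hT : ContDiff ℝ ∞ T) (k : ℕ) : ∃ M : ℝ, 0 ≤ M ∧ ∀ s : ℂ, ‖s‖ ≤ 3 → ∀ z : ℂ,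
      ‖iteratedFDeriv ℝ k (fun z : ℂ => wt T G s.re s.im (‖z‖ ^ 2)) z‖ ≤ M := by
  have hcomp : IsCompact (Set.Icc (-3 : ℝ) 3 ×ˢ Set.Icc (-3 : ℝ) 3) := isCompact_Icc.prod isCompact_Icc
  obtain ⟨M, hM, h⟩ := hCPM _ _ 1 (wt_smooth hG hT) hcomp (van hG T _) k
  refine ⟨M, hM, fun s hs z => ?_⟩
  have hre := abs_le.mp ((Complex.abs_re_le_norm s).trans hs)
  have him := abs_le.mp ((Complex.abs_im_le_norm s).trans hs)
  exact h (s.re, s.im) ⟨⟨hre.1, hre.2⟩, him.1, him.2⟩ z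

theorem wt_smooth' {G T : ℝ → ℝ} (hG : Pool.Agent.H33.HH.IsG G) (hT : ContDiff ℝ ∞ T) (s : ℂ) :
    ContDiff ℝ ∞ (fun z : ℂ => wt T G s.re s.im (‖z‖ ^ 2)) := by
  have h1 : ContDiff ℝ ∞ (fun z : ℂ => (((s.re, s.im) : ℝ × ℝ), z)) :=
    contDiff_const.prodMk contDiff_id
  exact (wt_smooth hG hT).comp h1

theorem fin_bound (N C M₁ M₂ F P Q : ℝ) (a b c : ℂ) (hN : ‖a‖ ≤ N)
    (hN0 : 0 ≤ N) (hC : 0 ≤ C) (hM₁ : 0 ≤ M₁) (hM₂ : 0 ≤ M₂) (hF : 0 ≤ F) (hPQ : P ≤ Q)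
    (e₁ : ‖b‖ ≤ C * M₁ * F * P) (e₂ : ‖c‖ ≤ C * M₂ * F * P) :
    ‖a * (b - c * I)‖ ≤ N * (C * (M₁ + M₂) * F * Q) := by
  have hAB : ‖b - c * I‖ ≤ C * (M₁ + M₂) * F * Q := by
    calc ‖b - c * I‖ ≤ ‖b‖ + ‖c * I‖ := norm_sub_le _ _
      _ = ‖b‖ + ‖c‖ := by rw [norm_mul, Complex.norm_I, mul_one]
      _ ≤ C * M₁ * F * P + C * M₂ * F * P := add_le_add e₁ e₂
      _ = C * (M₁ + M₂) * F * P := by ring
      _ ≤ _ := mul_le_mul_of_nonneg_left hPQ (by positivity)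
  rw [norm_mul]
  exact mul_le_mul hN hAB (norm_nonneg _) hN0

theorem pow_bound {X : ℝ} (hX1 : 1 ≤ X) (s : ℂ) (hs : ‖s‖ ≤ 3) :
    ‖((7 * X : ℝ) : ℂ) ^ (-s)‖ ≤ 343 * X ^ 3 := by
  have hre := abs_le.mp ((Complex.abs_re_le_norm s).trans hs)
  rw [Complex.norm_cpow_eq_rpow_re_of_pos (by positivity)]
  calc (7 * X) ^ (-s).re ≤ (7 * X) ^ (3 : ℝ) := by
        apply Real.rpow_le_rpow_of_exponent_le (by linarith)
        simp only [Complex.neg_re]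
        linarith [hre.1]
    _ = 343 * X ^ 3 := by
        rw [show (3 : ℝ) = ((3 : ℕ) : ℝ) by norm_num, Real.rpow_natCast]
        ring

theorem pf_SGD (hTWS : T_TWS) (hCPM : T_CPM) : T_SGD := by
  intro K _ _ _ G hG k hk
  obtain ⟨C, hC, hT⟩ := hTWS K k hk
  obtain ⟨M₁, hM₁, h₁⟩ := wt_bound hCPM hG Real.contDiff_cos k
  obtain ⟨M₂, hM₂, h₂⟩ := wt_bound hCPM hG Real.contDiff_sin k
  refine ⟨343 * C * (M₁ + M₂), by positivity, ?_⟩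
  intro χ hχ X hX s hs
  have hf : 0 < nm χ.f := nm_pos (⟨χ.f, χ.f_ne⟩ : NI K)
  have hf1 : 1 ≤ nm χ.f := by
    have h0 : Ideal.absNorm χ.f ≠ 0 := by
      rw [Ne, Ideal.absNorm_eq_zero_iff]
      exact χ.f_ne
    unfold nm
    exact_mod_cast Nat.one_le_iff_ne_zero.mpr h0
  have hX0 : 0 < X := lt_of_lt_of_le hf hX
  have hX1 : 1 ≤ X := hf1.trans hX
  have hex : (1 : ℝ) - (k : ℝ) / 2 ≤ 0 := by
    have : (2 : ℝ) ≤ k := by exact_mod_cast hk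
    linarith
  have hpow : (7 * X / nm χ.f) ^ (1 - (k : ℝ) / 2) ≤ (X / nm χ.f) ^ (1 - (k : ℝ) / 2) :=
    Real.rpow_le_rpow_of_nonpos (div_pos hX0 hf)
      (div_le_div_of_nonneg_right (by linarith) hf.le) hex
  have e₁ := hT (wt Real.cos G s.re s.im) M₁ (wt_smooth' hG Real.contDiff_cos s)
    (fun u hu => wt_high hG _ _ _ hu) (h₁ s hs) χ hχ (7 * X) (by linarith)
  have e₂ := hT (wt Real.sin G s.re s.im) M₂ (wt_smooth' hG Real.contDiff_sin s)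
    (fun u hu => wt_high hG _ _ _ hu) (h₂ s hs) χ hχ (7 * X) (by linarith)
  rw [SG_diff hG hX0]
  refine (fin_bound _ C M₁ M₂ _ _ _ _ _ _ (pow_bound hX1 s hs) (by positivity) hC hM₁ hM₂ hf.le
    hpow e₁ e₂).trans (le_of_eq ?_)
  ring

end

end Pool.Agent.H85.HH
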